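import Pool.Agent.Run7.h922.GG.Geo

/-!
# Completing a partial linear space by lines with two points
-/

set_option autoImplicit false

namespace Pool.Agent.Run7.h922.GG

/-- A partial linear space: points `Q`, lines `V`, two lines have at most one common point. -/
structure PLS (Q V : Type*) where
  /-- incidence -/
  I : Q → V → Prop
  h : ∀ {x y v w}, I x v → I x w → I y v → I y w → v ≠ w → x = y

namespace PLS

variable {Q V : Type*} (A : PLS Q V)

/-- flags of the lines of the partial linear space -/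
abbrev Big := {z : Q × V // A.I z.1 z.2}

/-- flags of the lines with two points: `(x, y)` is the flag of the point `x` on the line through
`x` and `y` -/
abbrev Small := {z : Q × Q // z.1 ≠ z.2 ∧ ∀ v, ¬ (A.I z.1 v ∧ A.I z.2 v)}

/-- the flags -/
abbrev Fl := A.Big ⊕ A.Small

/-- the point of a flag -/
def fpt : A.Fl → Q
  | .inl a => a.1.1
  | .inr a => a.1.1

/-- same line -/
def fs : A.Fl → A.Fl → Prop
  | .inl a, .inl b => a.1.2 = b.1.2
  | .inr a, .inr b => (a.1.1 = b.1.1 ∧ a.1.2 = b.1.2) ∨ (a.1.1 = b.1.2 ∧ a.1.2 = b.1.1)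
  | .inl _, .inr _ => False
  | .inr _, .inl _ => False

/-- the linear space -/
def lin : FS Q A.Fl where
  pt := A.fpt
  s := A.fs
  refl f := by
    cases f
    · exact rfl
    · exact Or.inl ⟨rfl, rfl⟩
  symm {f g} h := by
    cases f <;> cases g
    · exact h.symm
    · exact h
    · exact h
    · rcases h with ⟨h1, h2⟩ | ⟨h1, h2⟩
      · exact Or.inl ⟨h1.symm, h2.symm⟩
      · exact Or.inr ⟨h2.symm, h1.symm⟩
  trans {f g k} h h' := by
    cases f <;> cases g <;> cases k
    · exact h.trans h'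
    · exact h'
    · exact h.elim
    · exact h.elim
    · exact h.elim
    · exact h.elim
    · exact h'.elim
    · rcases h with ⟨h1, h2⟩ | ⟨h1, h2⟩ <;> rcases h' with ⟨h3, h4⟩ | ⟨h3, h4⟩
      · exact Or.inl ⟨h1.trans h3, h2.trans h4⟩
      · exact Or.inr ⟨h1.trans h3, h2.trans h4⟩
      · exact Or.inr ⟨h1.trans h4, h2.trans h3⟩
      · exact Or.inl ⟨h1.trans h4, h2.trans h3⟩
  inj {f g} h h' := by
    rcases f with a | a <;> rcases g with b | b
    · have h1 : a.1.2 = b.1.2 := h
      have h2 : a.1.1 = b.1.1 := h'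
      have h3 : a = b := Subtype.ext (Prod.ext h2 h1)
      rw [h3]
    · exact h.elim
    · exact h.elim
    · have h2 : a.1.1 = b.1.1 := h'
      rcases h with ⟨h3, h4⟩ | ⟨h3, h4⟩
      · have h5 : a = b := Subtype.ext (Prod.ext h3 h4)
        rw [h5]
      · exact absurd (h2.symm.trans h3) b.2.1
  ex p q hpq := by
    by_cases h : ∃ v, A.I p v ∧ A.I q v
    · obtain ⟨v, h1, h2⟩ := h
      exact ⟨.inl ⟨(p, v), h1⟩, .inl ⟨(q, v), h2⟩, rfl, rfl, rfl⟩
    · push Not at h
      exact ⟨.inr ⟨(p, q), hpq, fun v hv => h v hv.1 hv.2⟩,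
        .inr ⟨(q, p), hpq.symm, fun v hv => h v hv.2 hv.1⟩, rfl, rfl, Or.inr ⟨rfl, rfl⟩⟩
  uniq {f g f' g'} h h' e1 e2 hne := by
    rcases f with a | a <;> rcases g with b | b <;> rcases f' with a' | a' <;> rcases g' with b' | b'
    · have h1 : a.1.2 = b.1.2 := h
      have h2 : a'.1.2 = b'.1.2 := h'
      have h3 : a.1.1 = a'.1.1 := e1
      have h4 : b.1.1 = b'.1.1 := e2
      have h5 : a.1.1 ≠ b.1.1 := hne
      have h6 : a.1.2 = a'.1.2 := by
        by_contra hc
        apply h5
        refine A.h (v := a.1.2) (w := a'.1.2) a.2 (by rw [h3]; exact a'.2) (by rw [h1]; exact b.2)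
          (by rw [h4, h2]; exact b'.2) hc
      have h7 : a = a' := Subtype.ext (Prod.ext h3 h6)
      rw [h7]
    · exact h'.elim
    · exact h'.elim
    · exfalso
      have h1 : a.1.2 = b.1.2 := h
      have h3 : a.1.1 = a'.1.1 := e1
      have h4 : b.1.1 = b'.1.1 := e2
      have h5 : a.1.1 ≠ b.1.1 := hne
      rcases h' with ⟨h6, h7⟩ | ⟨h6, h7⟩
      · exact h5 (h3.trans (h6.trans h4.symm))
      · refine a'.2.2 a.1.2 ⟨by rw [← h3]; exact a.2, ?_⟩
        rw [h7, ← h4, h1]
        exact b.2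
    · exact h.elim
    · exact h.elim
    · exact h.elim
    · exact h.elim
    · exact h.elim
    · exact h.elim
    · exact h.elim
    · exact h.elim
    · exfalso
      have h1 : a'.1.2 = b'.1.2 := h'
      have h3 : a.1.1 = a'.1.1 := e1
      have h4 : b.1.1 = b'.1.1 := e2
      have h5 : a.1.1 ≠ b.1.1 := hne
      rcases h with ⟨h6, h7⟩ | ⟨h6, h7⟩
      · exact h5 h6
      · refine a.2.2 a'.1.2 ⟨by rw [h3]; exact a'.2, ?_⟩
        rw [h7, h4, h1]
        exact b'.2
    · exact h'.elim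
    · exact h'.elim
    · have h3 : a.1.1 = a'.1.1 := e1
      have h4 : b.1.1 = b'.1.1 := e2
      have h5 : a.1.1 ≠ b.1.1 := hne
      rcases h with ⟨h6, h7⟩ | ⟨h6, h7⟩
      · exact absurd h6 h5
      · rcases h' with ⟨h8, h9⟩ | ⟨h8, h9⟩
        · exact absurd (h3.trans (h8.trans h4.symm)) h5
        · have h10 : a = a' := Subtype.ext (Prod.ext h3 (h7.trans (h4.trans h9.symm)))
          rw [h10]

/-- the graph -/
abbrev Gr : SimpleGraph (Q ⊕ A.Fl) := A.lin.G

/-! ### Recovering the lines -/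

/-- in a triangle -/
def Tri {W : Type*} (G : SimpleGraph W) (u : W) : Prop := ∃ a b, G.Adj u a ∧ G.Adj u b ∧ G.Adj a b

theorem tri_iff (hA : ∀ v, ∃ x y z, A.I x v ∧ A.I y v ∧ A.I z v ∧ x ≠ y ∧ x ≠ z ∧ y ≠ z)
    (u : Q ⊕ A.Fl) : Tri A.Gr u ↔ ∃ a : A.Big, u = .inr (.inl a) := by
  constructor
  · rintro ⟨a, b, h1, h2, h3⟩
    rcases u with p | f | f
    · rcases a with a | a
      · exact h1.elim
      rcases b with b | b
      · exact h2.elim
      have h4 : A.fpt a = p := h1
      have h5 : A.fpt b = p := h2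
      exact absurd (A.lin.inj h3.2 (h4.trans h5.symm)) h3.1
    · exact ⟨f, rfl⟩
    · exfalso
      have key : ∀ g : A.Fl, A.Gr.Adj (.inr (.inr f)) (.inr g) → A.fpt g = f.1.2 := by
        rintro (g | g) ⟨h4, h5⟩
        · exact h5.elim
        · rcases h5 with ⟨h5, h6⟩ | ⟨h5, h6⟩
          · exact absurd (congrArg Sum.inr (Subtype.ext (Prod.ext h5 h6))) h4
          · exact h6.symm
      have hf := f.2.1
      rcases a with a | a <;> rcases b with b | b
      · exact h3.elim
      · have h4 : f.1.1 = a := h1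
        have h5 : A.fpt b = a := h3
        exact hf (h4.trans (h5.symm.trans (key b h2)))
      · have h4 : f.1.1 = b := h2
        have h5 : A.fpt a = b := h3
        exact hf (h4.trans (h5.symm.trans (key a h1)))
      · exact h3.1 (A.lin.inj h3.2 ((key a h1).trans (key b h2).symm))
  · rintro ⟨⟨⟨x, v⟩, hx⟩, rfl⟩
    obtain ⟨y, z, hy, hz, h1, h2, h3⟩ : ∃ y z, A.I y v ∧ A.I z v ∧ x ≠ y ∧ x ≠ z ∧ y ≠ z := by
      obtain ⟨a, b, c, ha, hb, hc, hab, hac, hbc⟩ := hA v
      by_cases e1 : x = a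
      · subst e1; exact ⟨b, c, hb, hc, hab, hac, hbc⟩
      · by_cases e2 : x = b
        · subst e2; exact ⟨a, c, ha, hc, e1, hbc, hac⟩
        · exact ⟨a, b, ha, hb, e1, e2, hab⟩
    refine ⟨.inr (.inl ⟨(y, v), hy⟩), .inr (.inl ⟨(z, v), hz⟩), ⟨?_, rfl⟩, ⟨?_, rfl⟩, ⟨?_, rfl⟩⟩
    · intro h
      exact h1 (congrArg (fun f => A.fpt f) h)
    · intro h
      exact h2 (congrArg (fun f => A.fpt f) h)
    · intro h
      exact h3 (congrArg (fun f => A.fpt f) h)

theorem tri_map {W W' : Type*} {G : SimpleGraph W} {G' : SimpleGraph W'} (ψ : G ≃g G') {u : W}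
    (h : Tri G u) : Tri G' (ψ u) := by
  obtain ⟨a, b, h1, h2, h3⟩ := h
  exact ⟨ψ a, ψ b, ψ.map_adj_iff.2 h1, ψ.map_adj_iff.2 h2, ψ.map_adj_iff.2 h3⟩

variable {Q' V' : Type*} (B : PLS Q' V')

/-- An isomorphism of the graphs gives a bijection of the lines which preserves intersection. -/
theorem recover (hA : ∀ v, ∃ x y z, A.I x v ∧ A.I y v ∧ A.I z v ∧ x ≠ y ∧ x ≠ z ∧ y ≠ z)
    (hB : ∀ v, ∃ x y z, B.I x v ∧ B.I y v ∧ B.I z v ∧ x ≠ y ∧ x ≠ z ∧ y ≠ z)
    (ψ : A.Gr ≃g B.Gr) : ∃ α : V ≃ V', ∀ v w, v ≠ w →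
      ((∃ x, A.I x v ∧ A.I x w) ↔ ∃ x, B.I x (α v) ∧ B.I x (α w)) := by
  classical
  have h1 : ∀ a : A.Big, ∃ b : B.Big, ψ (.inr (.inl a)) = .inr (.inl b) := fun a =>
    (B.tri_iff hB _).1 (tri_map ψ ((A.tri_iff hA _).2 ⟨a, rfl⟩))
  have h2 : ∀ b : B.Big, ∃ a : A.Big, ψ (.inr (.inl a)) = .inr (.inl b) := fun b => by
    obtain ⟨a, ha⟩ := (A.tri_iff hA _).1 (tri_map ψ.symm ((B.tri_iff hB _).2 ⟨b, rfl⟩))
    refine ⟨a, ?_⟩
    rw [← ha]
    exact ψ.apply_symm_apply _
  -- same line
  have sameA : ∀ a b : A.Big, a.1.2 = b.1.2 ↔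
      (a = b ∨ A.Gr.Adj (.inr (.inl a)) (.inr (.inl b))) := by
    intro a b
    constructor
    · intro h
      by_cases hab : a = b
      · exact Or.inl hab
      · exact Or.inr ⟨fun h' => hab (Sum.inl_injective h'), h⟩
    · rintro (h | h)
      · rw [h]
      · exact h.2
  have sameB : ∀ a b : B.Big, a.1.2 = b.1.2 ↔
      (a = b ∨ B.Gr.Adj (.inr (.inl a)) (.inr (.inl b))) := by
    intro a b
    constructor
    · intro h
      by_cases hab : a = b
      · exact Or.inl hab
      · exact Or.inr ⟨fun h' => hab (Sum.inl_injective h'), h⟩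
    · rintro (h | h)
      · rw [h]
      · exact h.2
  choose φ hφ using h1
  have same : ∀ a b : A.Big, a.1.2 = b.1.2 ↔ (φ a).1.2 = (φ b).1.2 := by
    intro a b
    rw [sameA, sameB, ← hφ, ← hφ, ψ.map_adj_iff]
    constructor
    · rintro (h | h)
      · exact Or.inl (by rw [h])
      · exact Or.inr h
    · rintro (h | h)
      · left
        have h3 : ψ (.inr (.inl a)) = ψ (.inr (.inl b)) := by rw [hφ, hφ, h]
        exact Sum.inl_injective (Sum.inr_injective (ψ.injective h3))
      · exact Or.inr h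
  have hA' : ∀ v, ∃ a : A.Big, a.1.2 = v := fun v => by
    obtain ⟨x, -, -, hx, -⟩ := hA v
    exact ⟨⟨(x, v), hx⟩, rfl⟩
  have hB' : ∀ v, ∃ a : B.Big, a.1.2 = v := fun v => by
    obtain ⟨x, -, -, hx, -⟩ := hB v
    exact ⟨⟨(x, v), hx⟩, rfl⟩
  choose F hF using hA'
  let α : V → V' := fun v => (φ (F v)).1.2
  have key : ∀ a : A.Big, (φ a).1.2 = α a.1.2 := fun a => by
    show _ = (φ (F a.1.2)).1.2
    rw [← same, hF]
  have inj : Function.Injective α := by
    intro v w h
    have h3 : (φ (F v)).1.2 = (φ (F w)).1.2 := h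
    rw [← same, hF, hF] at h3
    exact h3
  have surj : Function.Surjective α := by
    intro v'
    obtain ⟨b, hb⟩ := hB' v'
    obtain ⟨a, ha⟩ := h2 b
    refine ⟨a.1.2, ?_⟩
    rw [← key, ← hb]
    have h3 : φ a = b := Sum.inl_injective (Sum.inr_injective ((hφ a).symm.trans ha))
    rw [h3]
  refine ⟨Equiv.ofBijective α ⟨inj, surj⟩, fun v w hvw => ?_⟩
  show _ ↔ ∃ x, B.I x (α v) ∧ B.I x (α w)
  constructor
  · rintro ⟨x, hv, hw⟩
    have e1 := hφ ⟨(x, v), hv⟩
    have e2 := hφ ⟨(x, w), hw⟩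
    have k1 := key ⟨(x, v), hv⟩
    have k2 := key ⟨(x, w), hw⟩
    have a1 : B.Gr.Adj (.inr (.inl (φ ⟨(x, v), hv⟩))) (ψ (.inl x)) := by
      rw [← e1, ψ.map_adj_iff]
      exact rfl
    have a2 : B.Gr.Adj (.inr (.inl (φ ⟨(x, w), hw⟩))) (ψ (.inl x)) := by
      rw [← e2, ψ.map_adj_iff]
      exact rfl
    generalize ψ (.inl x) = c at a1 a2
    rcases c with p | g
    · have b1 : (φ ⟨(x, v), hv⟩).1.1 = p := a1
      have b2 : (φ ⟨(x, w), hw⟩).1.1 = p := a2
      refine ⟨p, ?_, ?_⟩
      · rw [← b1]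
        have h3 := (φ ⟨(x, v), hv⟩).2
        rw [k1] at h3
        exact h3
      · rw [← b2]
        have h3 := (φ ⟨(x, w), hw⟩).2
        rw [k2] at h3
        exact h3
    · exfalso
      have h3 : B.fs (.inl (φ ⟨(x, v), hv⟩)) (.inl (φ ⟨(x, w), hw⟩)) :=
        B.lin.trans a1.2 (B.lin.symm a2.2)
      have h4 : (φ ⟨(x, v), hv⟩).1.2 = (φ ⟨(x, w), hw⟩).1.2 := h3
      rw [k1, k2] at h4
      exact hvw (inj h4)
  · rintro ⟨x, hv, hw⟩
    obtain ⟨a, ha⟩ := h2 ⟨(x, α v), hv⟩
    obtain ⟨b, hb⟩ := h2 ⟨(x, α w), hw⟩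
    have ea : φ a = ⟨(x, α v), hv⟩ := Sum.inl_injective (Sum.inr_injective ((hφ a).symm.trans ha))
    have eb : φ b = ⟨(x, α w), hw⟩ := Sum.inl_injective (Sum.inr_injective ((hφ b).symm.trans hb))
    have ka : a.1.2 = v := by
      apply inj
      rw [← key, ea]
    have kb : b.1.2 = w := by
      apply inj
      rw [← key, eb]
    have a1 : A.Gr.Adj (.inr (.inl a)) (ψ.symm (.inl x)) := by
      rw [← ψ.map_adj_iff, ha, ψ.apply_symm_apply]
      exact rfl
    have a2 : A.Gr.Adj (.inr (.inl b)) (ψ.symm (.inl x)) := by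
      rw [← ψ.map_adj_iff, hb, ψ.apply_symm_apply]
      exact rfl
    generalize ψ.symm (.inl x) = c at a1 a2
    rcases c with p | g
    · have b1 : a.1.1 = p := a1
      have b2 : b.1.1 = p := a2
      refine ⟨p, ?_, ?_⟩
      · have h3 := a.2
        rw [b1, ka] at h3
        exact h3
      · have h3 := b.2
        rw [b2, kb] at h3
        exact h3
    · exfalso
      have h3 : A.fs (.inl a) (.inl b) := A.lin.trans a1.2 (A.lin.symm a2.2)
      have h4 : a.1.2 = b.1.2 := h3
      rw [ka, kb] at h4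
      exact hvw h4

variable {A B}

/-- Isomorphic partial linear spaces give isomorphic graphs. -/
def mapIso (β : Q ≃ Q') (α : V ≃ V') (h : ∀ x v, A.I x v ↔ B.I (β x) (α v)) : A.Gr ≃g B.Gr where
  toEquiv := Equiv.sumCongr β (Equiv.sumCongr
    ((Equiv.prodCongr β α).subtypeEquiv fun z => h z.1 z.2)
    ((Equiv.prodCongr β β).subtypeEquiv fun z => by
      show _ ↔ (β z.1 ≠ β z.2 ∧ ∀ v, ¬ (B.I (β z.1) v ∧ B.I (β z.2) v))
      rw [β.injective.ne_iff]
      refine and_congr_right fun _ => ?_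
      constructor
      · intro h' v
        obtain ⟨v, rfl⟩ := α.surjective v
        rw [← h, ← h]
        exact h' v
      · intro h' v
        rw [h, h]
        exact h' (α v)))
  map_rel_iff' {a b} := by
    rcases a with a | a | a <;> rcases b with b | b | b
    · exact Iff.rfl
    · exact β.injective.eq_iff
    · exact β.injective.eq_iff
    · exact β.injective.eq_iff
    · refine and_congr ?_ α.injective.eq_iff
      apply not_congr
      constructor
      · intro h'
        have h1 := Sum.inl_injective h'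
        have h2 := congrArg Subtype.val h1
        have h3 := (Equiv.prodCongr β α).injective h2
        rw [Subtype.ext h3]
      · intro h'
        rw [Sum.inl_injective h']
    · show (_ ∧ False) ↔ (_ ∧ False)
      simp
    · exact β.injective.eq_iff
    · show (_ ∧ False) ↔ (_ ∧ False)
      simp
    · refine and_congr ?_ (or_congr (and_congr β.injective.eq_iff β.injective.eq_iff)
        (and_congr β.injective.eq_iff β.injective.eq_iff))
      apply not_congr
      constructor
      · intro h'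
        have h1 := Sum.inr_injective h'
        have h2 := congrArg Subtype.val h1
        have h3 := (Equiv.prodCongr β β).injective h2
        rw [Subtype.ext h3]
      · intro h'
        rw [Sum.inr_injective h']

end PLS

/-! ### The partial linear space of a graph -/

section

variable {V : Type*} (X : SimpleGraph V)

/-- The points: the edges and three private points of every vertex. -/
abbrev Pt := X.edgeSet ⊕ (V × Fin 3)

/-- incidence -/
def inc : Pt X → V → Prop
  | .inl e, v => v ∈ e.1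
  | .inr w, v => w.1 = v

/-- The partial linear space of a graph: the lines are the stars of the vertices, each with three
private points. -/
def ofGraph : PLS (Pt X) V where
  I := inc X
  h {x y v w} h1 h2 h3 h4 hne := by
    rcases x with x | x <;> rcases y with y | y
    · have h5 : x.1 = s(v, w) := (Sym2.mem_and_mem_iff hne).1 ⟨h1, h2⟩
      have h6 : y.1 = s(v, w) := (Sym2.mem_and_mem_iff hne).1 ⟨h3, h4⟩
      have h7 : x = y := Subtype.ext (h5.trans h6.symm)
      rw [h7]
    · exact absurd ((show y.1 = v from h3).symm.trans h4) hne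
    · exact absurd ((show x.1 = v from h1).symm.trans h2) hne
    · exact absurd ((show x.1 = v from h1).symm.trans h2) hne

theorem three (v : V) : ∃ x y z, (ofGraph X).I x v ∧ (ofGraph X).I y v ∧ (ofGraph X).I z v ∧
    x ≠ y ∧ x ≠ z ∧ y ≠ z := by
  refine ⟨.inr (v, 0), .inr (v, 1), .inr (v, 2), rfl, rfl, rfl, ?_, ?_, ?_⟩ <;>
  · intro h
    have h1 := congrArg Prod.snd (Sum.inr_injective h)
    exact absurd h1 (by simp)

theorem adj_iff (v w : V) : X.Adj v w ↔ v ≠ w ∧ ∃ x, (ofGraph X).I x v ∧ (ofGraph X).I x w := by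
  constructor
  · intro h
    exact ⟨h.ne, .inl ⟨s(v, w), h⟩, Sym2.mem_mk_left v w, Sym2.mem_mk_right v w⟩
  · rintro ⟨hne, x | x, h1, h2⟩
    · have h5 : x.1 = s(v, w) := (Sym2.mem_and_mem_iff hne).1 ⟨h1, h2⟩
      have h6 := x.2
      rw [h5] at h6
      exact h6
    · exact absurd ((show x.1 = v from h1).symm.trans h2) hne

variable {W : Type*} (Y : SimpleGraph W)

/-- The graphs are isomorphic iff their geodetic graphs are. -/
theorem iso_iff : Nonempty (X ≃g Y) ↔ Nonempty ((ofGraph X).Gr ≃g (ofGraph Y).Gr) := by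
  constructor
  · rintro ⟨φ⟩
    refine ⟨PLS.mapIso (Equiv.sumCongr φ.mapEdgeSet (Equiv.prodCongr φ.toEquiv (Equiv.refl _)))
      φ.toEquiv fun x v => ?_⟩
    rcases x with x | x
    · show v ∈ x.1 ↔ φ v ∈ (φ.mapEdgeSet x).1
      have h1 : (φ.mapEdgeSet x).1 = Sym2.map φ x.1 := rfl
      rw [h1, Sym2.mem_map]
      constructor
      · intro h
        exact ⟨v, h, rfl⟩
      · rintro ⟨w, hw, h⟩
        rw [← φ.injective h]
        exact hw
    · exact φ.injective.eq_iff.symm
  · rintro ⟨ψ⟩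
    obtain ⟨α, hα⟩ := PLS.recover (ofGraph X) (ofGraph Y) (three X) (three Y) ψ
    refine ⟨⟨α, fun {v w} => ?_⟩⟩
    rw [adj_iff, adj_iff X, α.injective.ne_iff]
    refine and_congr_right fun h => ?_
    rw [hα v w h]

/-- The graph of the construction is geodetic of diameter at most five. -/
theorem geodetic_gr [Nonempty V] : Geodetic (ofGraph X).Gr ∧ ∀ u v, (ofGraph X).Gr.dist u v ≤ 5 := by
  have : Nonempty (Pt X) := ⟨.inr (Classical.arbitrary V, 0)⟩
  exact FS.geodetic _

/-- The graph of the construction has no cut vertex. -/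
theorem noCut_gr [Nontrivial V] : NoCut (ofGraph X).Gr := by
  have three' : ∀ (v : V) (x : Pt X), ∃ k : Fin 3, (.inr (v, k) : Pt X) ≠ x := by
    intro v x
    by_contra hc
    push Not at hc
    have h := (hc 0).trans (hc 1).symm
    exact absurd (congrArg Prod.snd (Sum.inr_injective h)) (by simp)
  apply FS.noCut
  · rintro (⟨⟨x, v⟩, hx⟩ | ⟨⟨x, y⟩, hx, hx'⟩)
    · obtain ⟨k, hk⟩ := three' v x
      refine ⟨.inl ⟨(.inr (v, k), v), rfl⟩, fun h => hk ?_, rfl⟩
      exact congrArg (fun f => (ofGraph X).fpt f) h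
    · refine ⟨.inr ⟨(y, x), hx.symm, fun v hv => hx' v hv.symm⟩, fun h => hx ?_, Or.inr ⟨rfl, rfl⟩⟩
      exact (congrArg (fun f => (ofGraph X).fpt f) h).symm
  · rintro (⟨⟨x, v⟩, hx⟩ | ⟨⟨x, y⟩, hx, hx'⟩)
    · obtain ⟨w, hw⟩ := exists_ne v
      refine ⟨.inr (w, 0), ?_⟩
      rintro ⟨g | g, h1, h2⟩
      · have h3 : v = g.1.2 := h1
        have h4 : g.1.1 = .inr (w, 0) := h2
        have h5 := g.2
        rw [h4, ← h3] at h5
        exact hw h5
      · exact h1
    · obtain ⟨v⟩ : Nonempty V := inferInstance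
      have h : ∃ k : Fin 3, (.inr (v, k) : Pt X) ≠ x ∧ (.inr (v, k) : Pt X) ≠ y := by
        by_contra hc
        push Not at hc
        have inj : ∀ i j : Fin 3, (.inr (v, i) : Pt X) = .inr (v, j) → i = j := fun i j h =>
          congrArg Prod.snd (Sum.inr_injective h)
        by_cases h0 : (.inr (v, 0) : Pt X) = x
        · have h1 : (.inr (v, 1) : Pt X) = y := hc 1 fun h => absurd (inj _ _ (h.trans h0.symm))
            (by simp)
          have h2 : (.inr (v, 2) : Pt X) = y := hc 2 fun h => absurd (inj _ _ (h.trans h0.symm))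
            (by simp)
          exact absurd (inj _ _ (h1.trans h2.symm)) (by simp)
        · have h0' : (.inr (v, 0) : Pt X) = y := hc 0 h0
          have h1 : (.inr (v, 1) : Pt X) = x := by
            by_contra h
            exact absurd (inj _ _ ((hc 1 h).trans h0'.symm)) (by simp)
          have h2 : (.inr (v, 2) : Pt X) = x := by
            by_contra h
            exact absurd (inj _ _ ((hc 2 h).trans h0'.symm)) (by simp)
          exact absurd (inj _ _ (h1.trans h2.symm)) (by simp)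
      obtain ⟨k, h1, h2⟩ := h
      refine ⟨.inr (v, k), ?_⟩
      rintro ⟨g | g, h3, h4⟩
      · exact h3
      · have h5 : g.1.1 = .inr (v, k) := h4
        rcases h3 with ⟨h6, h7⟩ | ⟨h6, h7⟩
        · exact h1 (h5.symm.trans h6.symm)
        · exact h2 (h5.symm.trans h7.symm)

end

end Pool.Agent.Run7.h922.GG
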