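import Mathlib.Combinatorics.SimpleGraph.Metric
import Mathlib.Tactic

/-!
# Geodetic graphs and the flag graph of a linear space
-/

set_option autoImplicit false

namespace Pool.Agent.Run7.h922.GG

/-- A graph is geodetic if it is connected and any two vertices `u`, `v` are joined by exactly one
shortest path, that is, by exactly one path whose length is the distance of `u` and `v`. -/
def Geodetic {V : Type*} (G : SimpleGraph V) : Prop :=
  G.Connected ∧ ∀ u v : V, ∃! p : G.Path u v, (p : G.Walk u v).length = G.dist u v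

section

variable {V : Type*} {G : SimpleGraph V} {d : V → V → ℕ}

theorem exists_walk (h0 : ∀ v, d v v = 0)
    (h : ∀ u v, u ≠ v → ∃ w0, G.Adj u w0 ∧ d u v = d w0 v + 1 ∧
      ∀ w, G.Adj u w → w ≠ w0 → d u v ≤ d w v) :
    ∀ (k : ℕ) (u v : V), d u v = k → ∃ p : G.Walk u v, p.length = k := by
  intro k
  induction k with
  | zero =>
    intro u v huv
    by_cases hne : u = v
    · subst hne
      exact ⟨SimpleGraph.Walk.nil, rfl⟩
    · obtain ⟨w, -, h2, -⟩ := h u v hne
      omega
  | succ k ih =>
    intro u v huv
    have hne : u ≠ v := by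
      rintro rfl
      rw [h0] at huv
      omega
    obtain ⟨w, h1, h2, -⟩ := h u v hne
    obtain ⟨p, hp⟩ := ih w v (by omega)
    exact ⟨SimpleGraph.Walk.cons h1 p, by simp [hp]⟩

theorem le_adj (h0 : ∀ v, d v v = 0)
    (h : ∀ u v, u ≠ v → ∃ w0, G.Adj u w0 ∧ d u v = d w0 v + 1 ∧
      ∀ w, G.Adj u w → w ≠ w0 → d u v ≤ d w v) {u w : V} (v : V) (hw : G.Adj u w) :
    d u v ≤ d w v + 1 := by
  by_cases hne : u = v
  · subst hne
    rw [h0]
    omega
  · obtain ⟨w0, h1, h2, h3⟩ := h u v hne
    by_cases hw0 : w = w0
    · subst hw0; omega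
    · have := h3 w hw hw0
      omega

theorem le_length (h0 : ∀ v, d v v = 0)
    (h : ∀ u v, u ≠ v → ∃ w0, G.Adj u w0 ∧ d u v = d w0 v + 1 ∧
      ∀ w, G.Adj u w → w ≠ w0 → d u v ≤ d w v) {u v : V} (p : G.Walk u v) :
    d u v ≤ p.length := by
  induction p with
  | nil => rw [h0]; exact Nat.zero_le _
  | @cons a b c hw p ih =>
    have := le_adj h0 h c hw
    rw [SimpleGraph.Walk.length_cons]
    omega

theorem uniq_walk (h0 : ∀ v, d v v = 0)
    (h : ∀ u v, u ≠ v → ∃ w0, G.Adj u w0 ∧ d u v = d w0 v + 1 ∧
      ∀ w, G.Adj u w → w ≠ w0 → d u v ≤ d w v) {u v : V} (p : G.Walk u v) :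
    ∀ q : G.Walk u v, p.length = d u v → q.length = d u v → p = q := by
  induction p with
  | nil =>
    intro q _ hq
    rw [h0] at hq
    exact (SimpleGraph.Walk.length_eq_zero_iff.1 hq).eq_nil.symm
  | @cons u w v hw p ih =>
    intro q hp hq
    rw [SimpleGraph.Walk.length_cons] at hp
    have hne : u ≠ v := by
      rintro rfl
      rw [h0] at hp
      omega
    cases q with
    | nil => exact absurd rfl hne
    | @cons _ w' _ hw' q =>
      rw [SimpleGraph.Walk.length_cons] at hq
      have h1 := le_length h0 h p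
      have h2 := le_length h0 h q
      obtain ⟨w0, h4, h5, h6⟩ := h u v hne
      have e1 : w = w0 := by
        by_contra hc
        have := h6 w hw hc
        omega
      have e2 : w' = w0 := by
        by_contra hc
        have := h6 w' hw' hc
        omega
      subst e1
      subst e2
      have h7 : p = q := ih q (by omega) (by omega)
      rw [h7]

/-- A distance function with unique next steps. -/
theorem geodetic_of_fun [Nonempty V] (h0 : ∀ v, d v v = 0)
    (h : ∀ u v, u ≠ v → ∃ w0, G.Adj u w0 ∧ d u v = d w0 v + 1 ∧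
      ∀ w, G.Adj u w → w ≠ w0 → d u v ≤ d w v) :
    Geodetic G ∧ ∀ u v, G.dist u v = d u v := by
  have hr : ∀ u v, G.Reachable u v := fun u v => by
    obtain ⟨p, -⟩ := exists_walk h0 h _ u v rfl
    exact ⟨p⟩
  have hd : ∀ u v, G.dist u v = d u v := by
    intro u v
    apply le_antisymm
    · obtain ⟨p, hp⟩ := exists_walk h0 h _ u v rfl
      rw [← hp]
      exact SimpleGraph.dist_le p
    · obtain ⟨p, hp⟩ := (hr u v).exists_walk_length_eq_dist
      rw [← hp]
      exact le_length h0 h p
  refine ⟨⟨SimpleGraph.Connected.mk fun u v => hr u v, fun u v => ?_⟩, hd⟩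
  obtain ⟨p, hp⟩ := (hr u v).exists_walk_length_eq_dist
  refine ⟨⟨p, SimpleGraph.Walk.isPath_of_length_eq_dist p hp⟩, hp, ?_⟩
  rintro ⟨q, hq'⟩ hq
  apply Subtype.ext
  exact uniq_walk h0 h q p (hq.trans (hd u v)) (hp.trans (hd u v))

end

/-- A linear space, given by its points and flags: `pt f` is the point of the flag `f`, and
`s f g` means that `f` and `g` have the same line. -/
structure FS (P F : Type*) where
  /-- the point of a flag -/
  pt : F → P
  /-- having the same line -/
  s : F → F → Prop
  refl : ∀ f, s f f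
  symm : ∀ {f g}, s f g → s g f
  trans : ∀ {f g h}, s f g → s g h → s f h
  inj : ∀ {f g}, s f g → pt f = pt g → f = g
  ex : ∀ p q, p ≠ q → ∃ f g, pt f = p ∧ pt g = q ∧ s f g
  uniq : ∀ {f g f' g'}, s f g → s f' g' → pt f = pt f' → pt g = pt g' → pt f ≠ pt g → f = f'

namespace FS

variable {P F : Type*} (S : FS P F)

/-- adjacency in the flag graph -/
def Ad : P ⊕ F → P ⊕ F → Prop
  | .inl _, .inl _ => False
  | .inl p, .inr f => S.pt f = p
  | .inr f, .inl p => S.pt f = p
  | .inr f, .inr g => f ≠ g ∧ S.s f g

/-- The flag graph of a linear space: the vertices are the points and the flags, a point is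
adjacent to its flags, and two flags with the same line are adjacent. -/
def G : SimpleGraph (P ⊕ F) where
  Adj := S.Ad
  symm := ⟨fun a b h => by
    cases a <;> cases b
    · exact h
    · exact h
    · exact h
    · exact ⟨h.1.symm, S.symm h.2⟩⟩
  loopless := ⟨fun a h => by
    cases a
    · exact h
    · exact h.1 rfl⟩

/-- the point lies on the line of the flag -/
def On (f : F) (p : P) : Prop := ∃ g, S.s f g ∧ S.pt g = p

/-- the lines of two flags have a common point -/
def Meet (f g : F) : Prop := ∃ a b, S.s f a ∧ S.s g b ∧ S.pt a = S.pt b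

theorem common {f g a b a' b' : F} (h1 : S.s f a) (h2 : S.s f b) (h3 : S.s g a') (h4 : S.s g b')
    (h5 : S.pt a = S.pt a') (h6 : S.pt b = S.pt b') (h7 : S.pt a ≠ S.pt b) : S.s f g := by
  have h : a = a' := S.uniq (S.trans (S.symm h1) h2) (S.trans (S.symm h3) h4) h5 h6 h7
  subst h
  exact S.trans h1 (S.symm h3)

open Classical in
/-- the distance function -/
noncomputable def d : P ⊕ F → P ⊕ F → ℕ
  | .inl p, .inl q => if p = q then 0 else 3
  | .inl p, .inr f => if S.pt f = p then 1 else if S.On f p then 2 else 4
  | .inr f, .inl p => if S.pt f = p then 1 else if S.On f p then 2 else 4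
  | .inr f, .inr g => if S.s f g then (if f = g then 0 else 1) else if S.pt f = S.pt g then 2
      else if S.On g (S.pt f) ∨ S.On f (S.pt g) then 3 else if S.Meet f g then 4 else 5

theorem d_self (v : P ⊕ F) : S.d v v = 0 := by
  cases v
  · simp [d]
  · simp [d, S.refl]

theorem d_le (u v : P ⊕ F) : S.d u v ≤ 5 := by
  cases u <;> cases v <;> simp only [d] <;> split_ifs <;> omega

theorem d_pf_pos (p : P) (f : F) : 1 ≤ S.d (.inl p) (.inr f) := by
  simp only [d]; split_ifs <;> omega

theorem d_fp_pos (p : P) (f : F) : 1 ≤ S.d (.inr f) (.inl p) := by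
  simp only [d]; split_ifs <;> omega

theorem d_fp_two {p : P} {f : F} (h : S.pt f ≠ p) : 2 ≤ S.d (.inr f) (.inl p) := by
  simp only [d, if_neg h]; split_ifs <;> omega

theorem d_ff_two {f g : F} (h : ¬ S.s f g) : 2 ≤ S.d (.inr f) (.inr g) := by
  simp only [d, if_neg h]; split_ifs <;> omega

theorem d_ff_three {f g : F} (h : ¬ S.s f g) (h' : S.pt f ≠ S.pt g) :
    3 ≤ S.d (.inr f) (.inr g) := by
  simp only [d, if_neg h, if_neg h']; split_ifs <;> omega

theorem d_ff_four {f g : F} (h : ¬ S.s f g) (h' : S.pt f ≠ S.pt g)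
    (h2 : ¬ S.On g (S.pt f)) (h3 : ¬ S.On f (S.pt g)) :
    4 ≤ S.d (.inr f) (.inr g) := by
  have h4 : ¬ (S.On g (S.pt f) ∨ S.On f (S.pt g)) := by tauto
  simp only [d, if_neg h, if_neg h', if_neg h4]; split_ifs <;> omega

theorem step (u v : P ⊕ F) (huv : u ≠ v) : ∃ w0, S.G.Adj u w0 ∧ S.d u v = S.d w0 v + 1 ∧
    ∀ w, S.G.Adj u w → w ≠ w0 → S.d u v ≤ S.d w v := by
  rcases u with p | f <;> rcases v with q | g
  · -- point to point
    have hpq : p ≠ q := fun h => huv (by rw [h])
    obtain ⟨f, g, hf, hg, hs⟩ := S.ex p q hpq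
    refine ⟨.inr f, hf, ?_, ?_⟩
    · have h1 : S.pt f ≠ q := by rw [hf]; exact hpq
      have h2 : S.On f q := ⟨g, hs, hg⟩
      simp [d, hpq, h1, h2]
    · rintro (r | f') hw hne
      · exact hw.elim
      · have hf' : S.pt f' = p := hw
        have h1 : S.pt f' ≠ q := by rw [hf']; exact hpq
        have h2 : ¬ S.On f' q := by
          rintro ⟨g', h3, h4⟩
          have h5 : f' = f := S.uniq h3 hs (hf'.trans hf.symm) (h4.trans hg.symm) (by
            rw [hf', h4]; exact hpq)
          exact hne (by rw [h5])
        simp [d, hpq, h1, h2]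
  · -- point to flag
    by_cases h1 : S.pt g = p
    · refine ⟨.inr g, h1, ?_, ?_⟩
      · simp [d, h1, S.refl]
      · rintro (r | f') hw hne
        · exact hw.elim
        · have hf' : S.pt f' = p := hw
          have h2 : ¬ S.s f' g := fun h => hne (by rw [S.inj h (hf'.trans h1.symm)])
          have h3 := S.d_ff_two h2
          have h4 : S.d (.inl p) (.inr g) = 1 := by simp [d, h1]
          omega
    · by_cases h2 : S.On g p
      · have h2' := h2
        obtain ⟨k, hk, hkp⟩ := h2'
        refine ⟨.inr k, hkp, ?_, ?_⟩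
        · have h3 : k ≠ g := fun h => h1 (by rw [← h, hkp])
          simp [d, h1, h2, S.symm hk, h3]
        · rintro (r | f') hw hne
          · exact hw.elim
          · have hf' : S.pt f' = p := hw
            have h3 : ¬ S.s f' g := fun h =>
              hne (by rw [S.inj (S.trans h hk) (hf'.trans hkp.symm)])
            have h4 := S.d_ff_two h3
            have h5 : S.d (.inl p) (.inr g) = 2 := by simp [d, h1, h2]
            omega
      · obtain ⟨a, b, ha, hb, hs⟩ := S.ex p (S.pt g) (fun h => h1 h.symm)
        have h3 : S.d (.inl p) (.inr g) = 4 := by simp [d, h1, h2]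
        refine ⟨.inr a, ha, ?_, ?_⟩
        · have h4 : ¬ S.s a g := fun h => h2 ⟨a, S.symm h, ha⟩
          have h5 : S.pt a ≠ S.pt g := by rw [ha]; exact fun h => h1 h.symm
          have h6 : S.On a (S.pt g) := ⟨b, hs, hb⟩
          rw [h3]
          simp [d, h4, h5, h6]
        · rintro (r | f') hw hne
          · exact hw.elim
          · have hf' : S.pt f' = p := hw
            have h4 : ¬ S.s f' g := fun h => h2 ⟨f', S.symm h, hf'⟩
            have h5 : S.pt f' ≠ S.pt g := by rw [hf']; exact fun h => h1 h.symm
            have h6 : ¬ S.On f' (S.pt g) := by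
              rintro ⟨b', h7, h8⟩
              have h9 : f' = a := S.uniq h7 hs (hf'.trans ha.symm) (h8.trans hb.symm) (by
                rw [h8]; exact h5)
              exact hne (by rw [h9])
            have h7 : ¬ S.On g (S.pt f') := by rw [hf']; exact h2
            have h8 := S.d_ff_four h4 h5 h7 h6
            omega
  · -- flag to point
    by_cases h1 : S.pt f = q
    · refine ⟨.inl q, h1, ?_, ?_⟩
      · simp [d, h1]
      · rintro (r | f') hw hne
        · exact absurd (congrArg Sum.inl ((show S.pt f = r from hw).symm.trans h1)) hne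
        · have h2 := S.d_fp_pos q f'
          have h3 : S.d (.inr f) (.inl q) = 1 := by simp [d, h1]
          omega
    · by_cases h2 : S.On f q
      · have h2' := h2
        obtain ⟨k, hk, hkq⟩ := h2'
        have h4 : S.d (.inr f) (.inl q) = 2 := by simp [d, h1, h2]
        refine ⟨.inr k, ⟨fun h => h1 (by rw [h, hkq]), hk⟩, ?_, ?_⟩
        · rw [h4]
          simp [d, hkq]
        · rintro (r | f') hw hne
          · have hr : S.pt f = r := hw
            have h5 : r ≠ q := by rw [← hr]; exact h1
            rw [h4]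
            simp [d, h5]
          · obtain ⟨h5, h6⟩ := hw
            have h7 : S.pt f' ≠ q := fun h =>
              hne (by rw [S.inj (S.trans (S.symm h6) hk) (h.trans hkq.symm)])
            have h8 := S.d_fp_two h7
            omega
      · have h3 : S.d (.inr f) (.inl q) = 4 := by simp [d, h1, h2]
        refine ⟨.inl (S.pt f), rfl, ?_, ?_⟩
        · rw [h3]
          simp [d, h1]
        · rintro (r | f') hw hne
          · exact absurd (congrArg Sum.inl (show S.pt f = r from hw).symm) hne
          · obtain ⟨h5, h6⟩ := hw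
            have h7 : ¬ S.On f' q := by
              rintro ⟨k, hk, hkq⟩
              exact h2 ⟨k, S.trans h6 hk, hkq⟩
            have h8 : S.pt f' ≠ q := fun h => h2 ⟨f', h6, h⟩
            rw [h3]
            simp [d, h7, h8]
  · -- flag to flag
    by_cases h1 : S.s f g
    · have hne : f ≠ g := fun h => huv (by rw [h])
      have h2 : S.d (.inr f) (.inr g) = 1 := by simp [d, h1, hne]
      refine ⟨.inr g, ⟨hne, h1⟩, ?_, ?_⟩
      · rw [h2, d_self]
      · rintro (r | h) hw hne'
        · rw [h2]; exact S.d_pf_pos _ _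
        · obtain ⟨h5, h6⟩ := hw
          have h7 : h ≠ g := fun h' => hne' (by rw [h'])
          rw [h2]
          simp [d, S.trans (S.symm h6) h1, h7]
    · by_cases h2 : S.pt f = S.pt g
      · have h3 : S.d (.inr f) (.inr g) = 2 := by simp [d, h1, h2]
        refine ⟨.inl (S.pt f), rfl, ?_, ?_⟩
        · rw [h3]
          simp [d, h2]
        · rintro (r | h) hw hne
          · exact absurd (congrArg Sum.inl (show S.pt f = r from hw).symm) hne
          · obtain ⟨h5, h6⟩ := hw
            have h7 : ¬ S.s h g := fun h' => h1 (S.trans h6 h')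
            rw [h3]
            exact S.d_ff_two h7
      · by_cases h3 : S.On g (S.pt f)
        · have h4 : S.d (.inr f) (.inr g) = 3 := by simp [d, h1, h2, h3]
          have h3' := h3
          obtain ⟨k, hk, hkf⟩ := h3'
          refine ⟨.inl (S.pt f), rfl, ?_, ?_⟩
          · rw [h4]
            simp [d, Ne.symm h2, h3]
          · rintro (r | h) hw hne
            · exact absurd (congrArg Sum.inl (show S.pt f = r from hw).symm) hne
            · obtain ⟨h5, h6⟩ := hw
              have h7 : ¬ S.s h g := fun h' => h1 (S.trans h6 h')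
              have h8 : S.pt h ≠ S.pt g := fun h' =>
                h1 (S.common (S.refl f) h6 hk (S.refl g) hkf.symm h' (by
                  rw [h']; exact h2))
              rw [h4]
              exact S.d_ff_three h7 h8
        · by_cases h4 : S.On f (S.pt g)
          · have h5 : S.d (.inr f) (.inr g) = 3 := by simp [d, h1, h2, h4]
            obtain ⟨k, hk, hkg⟩ := h4
            refine ⟨.inr k, ⟨fun h => h2 (by rw [h, hkg]), hk⟩, ?_, ?_⟩
            · have h6 : ¬ S.s k g := fun h' => h1 (S.trans hk h')
              rw [h5]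
              simp [d, h6, hkg]
            · rintro (r | h) hw hne
              · have hr : S.pt f = r := hw
                have h7 : S.pt g ≠ r := by rw [← hr]; exact Ne.symm h2
                have h8 : ¬ S.On g r := by rw [← hr]; exact h3
                rw [h5]
                simp [d, h7, h8]
              · obtain ⟨h7, h8⟩ := hw
                have h9 : ¬ S.s h g := fun h' => h1 (S.trans h8 h')
                have h10 : S.pt h ≠ S.pt g := fun h' =>
                  hne (by rw [S.inj (S.trans (S.symm h8) hk) (h'.trans hkg.symm)])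
                rw [h5]
                exact S.d_ff_three h9 h10
          · by_cases h5 : S.Meet f g
            · have h6 : S.d (.inr f) (.inr g) = 4 := by simp [d, h1, h2, h3, h4, h5]
              obtain ⟨a, b, ha, hb, hab⟩ := h5
              refine ⟨.inr a, ⟨fun h => h3 ⟨b, hb, by rw [h, hab]⟩, ha⟩, ?_, ?_⟩
              · have h7 : ¬ S.s a g := fun h' => h1 (S.trans ha h')
                have h8 : S.pt a ≠ S.pt g := fun h' => h4 ⟨a, ha, h'⟩
                have h9 : S.On g (S.pt a) := ⟨b, hb, hab.symm⟩
                rw [h6]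
                simp [d, h7, h8, h9]
              · rintro (r | h) hw hne
                · have hr : S.pt f = r := hw
                  have h7 : S.pt g ≠ r := by rw [← hr]; exact Ne.symm h2
                  have h8 : ¬ S.On g r := by rw [← hr]; exact h3
                  rw [h6]
                  simp [d, h7, h8]
                · obtain ⟨h7, h8⟩ := hw
                  have h9 : ¬ S.s h g := fun h' => h1 (S.trans h8 h')
                  have h10 : S.pt h ≠ S.pt g := fun h' => h4 ⟨h, h8, h'⟩
                  have h11 : ¬ S.On h (S.pt g) := by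
                    rintro ⟨k, hk, hkg⟩
                    exact h4 ⟨k, S.trans h8 hk, hkg⟩
                  have h12 : ¬ S.On g (S.pt h) := by
                    rintro ⟨k, hk, hkg⟩
                    refine h1 (S.common ha h8 hb hk hab hkg.symm fun h' => ?_)
                    exact hne (by rw [S.inj (S.trans (S.symm h8) ha) h'.symm])
                  rw [h6]
                  exact S.d_ff_four h9 h10 h12 h11
            · have h6 : S.d (.inr f) (.inr g) = 5 := by simp [d, h1, h2, h3, h4, h5]
              refine ⟨.inl (S.pt f), rfl, ?_, ?_⟩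
              · rw [h6]
                simp [d, Ne.symm h2, h3]
              · rintro (r | h) hw hne
                · exact absurd (congrArg Sum.inl (show S.pt f = r from hw).symm) hne
                · obtain ⟨h7, h8⟩ := hw
                  have h9 : ¬ S.s h g := fun h' => h1 (S.trans h8 h')
                  have h10 : S.pt h ≠ S.pt g := fun h' => h4 ⟨h, h8, h'⟩
                  have h11 : ¬ S.On h (S.pt g) := by
                    rintro ⟨k, hk, hkg⟩
                    exact h4 ⟨k, S.trans h8 hk, hkg⟩
                  have h12 : ¬ S.On g (S.pt h) := by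
                    rintro ⟨k, hk, hkg⟩
                    exact h5 ⟨h, k, h8, hk, hkg.symm⟩
                  have h13 : ¬ S.Meet h g := by
                    rintro ⟨a, b, ha, hb, hab⟩
                    exact h5 ⟨a, b, S.trans h8 ha, hb, hab⟩
                  rw [h6]
                  simp [d, h9, h10, h11, h12, h13]

/-- **The flag graph of every linear space is geodetic**, of diameter at most five. -/
theorem geodetic [Nonempty P] : Geodetic S.G ∧ ∀ u v, S.G.dist u v ≤ 5 := by
  obtain ⟨h1, h2⟩ := geodetic_of_fun (G := S.G) S.d_self S.step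
  exact ⟨h1, fun u v => by rw [h2]; exact S.d_le u v⟩

end FS

/-! ### No cut vertices -/

/-- `G` has no cut vertex: any two vertices different from a vertex `z` are joined by a walk which
avoids `z`. -/
def NoCut {V : Type*} (G : SimpleGraph V) : Prop :=
  ∀ z u v : V, u ≠ z → v ≠ z → ∃ p : G.Walk u v, z ∉ p.support

section

variable {V : Type*} {G : SimpleGraph V} {z : V}

/-- joined by a walk avoiding `z` -/
def Jo (G : SimpleGraph V) (z u v : V) : Prop := ∃ p : G.Walk u v, z ∉ p.support

theorem Jo.symm {u v : V} (h : Jo G z u v) : Jo G z v u := by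
  obtain ⟨p, hp⟩ := h
  exact ⟨p.reverse, by rw [SimpleGraph.Walk.support_reverse, List.mem_reverse]; exact hp⟩

theorem Jo.trans {u v w : V} (h : Jo G z u v) (h' : Jo G z v w) : Jo G z u w := by
  obtain ⟨p, hp⟩ := h
  obtain ⟨q, hq⟩ := h'
  refine ⟨p.append q, ?_⟩
  rw [SimpleGraph.Walk.mem_support_append_iff]
  tauto

theorem Jo.refl {u : V} (h : u ≠ z) : Jo G z u u :=
  ⟨SimpleGraph.Walk.nil, by simpa using h.symm⟩

theorem Jo.adj {u v : V} (h : G.Adj u v) (hu : u ≠ z) (hv : v ≠ z) : Jo G z u v :=
  ⟨SimpleGraph.Walk.cons h SimpleGraph.Walk.nil, by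
    simp only [SimpleGraph.Walk.support_cons, SimpleGraph.Walk.support_nil, List.mem_cons,
      List.not_mem_nil, or_false]
    push Not
    exact ⟨hu.symm, hv.symm⟩⟩

end

namespace FS

variable {P F : Type*} (S : FS P F)

/-- The flag graph has no cut vertex, if every line has at least two points and no line contains
all points. -/
theorem noCut (h2 : ∀ f, ∃ g, g ≠ f ∧ S.s f g) (h3 : ∀ f, ∃ p, ¬ S.On f p) : NoCut S.G := by
  rintro (p0 | f0) u v hu hv
  · -- a point is removed
    have h1 : ∀ q q' : P, q ≠ p0 → q' ≠ p0 → Jo S.G (.inl p0) (.inl q) (.inl q') := by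
      intro q q' hq hq'
      by_cases hqq : q = q'
      · subst hqq
        exact Jo.refl fun h => hq (Sum.inl_injective h)
      · obtain ⟨f, g, hf, hg, hs⟩ := S.ex q q' hqq
        have hfg : f ≠ g := fun h => hqq (by rw [← hf, ← hg, h])
        refine (Jo.adj (v := .inr f) hf (fun h => hq (Sum.inl_injective h)) (by simp)).trans ?_
        refine (Jo.adj (v := .inr g) (show S.G.Adj (.inr f) (.inr g) from ⟨hfg, hs⟩) (by simp) (by simp)).trans ?_
        exact Jo.adj hg (by simp) (fun h => hq' (Sum.inl_injective h))
    have h4 : ∀ u : P ⊕ F, u ≠ .inl p0 → ∃ q, q ≠ p0 ∧ Jo S.G (.inl p0) u (.inl q) := by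
      rintro (q | f) hu
      · exact ⟨q, fun h => hu (by rw [h]), Jo.refl hu⟩
      · by_cases h : S.pt f = p0
        · obtain ⟨g, hg, hs⟩ := h2 f
          have h5 : S.pt g ≠ p0 := fun h' => hg (S.inj (S.symm hs) (h'.trans h.symm))
          refine ⟨S.pt g, h5, (Jo.adj (v := .inr g) (show S.G.Adj (.inr f) (.inr g) from ⟨hg.symm, hs⟩) hu (by simp)).trans ?_⟩
          exact Jo.adj rfl (by simp) (fun h => h5 (Sum.inl_injective h))
        · exact ⟨S.pt f, h, Jo.adj rfl hu (fun h' => h (Sum.inl_injective h'))⟩
    obtain ⟨q, hq, hq1⟩ := h4 u hu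
    obtain ⟨q', hq', hq1'⟩ := h4 v hv
    exact hq1.trans ((h1 q q' hq hq').trans hq1'.symm)
  · -- a flag is removed
    obtain ⟨r, hr⟩ := h3 f0
    have h0 : ∀ q q' : P, q ≠ q' → (∀ f g, S.pt f = q → S.pt g = q' → S.s f g → f ≠ f0 ∧ g ≠ f0) →
        Jo S.G (.inr f0) (.inl q) (.inl q') := by
      intro q q' hqq h
      obtain ⟨f, g, hf, hg, hs⟩ := S.ex q q' hqq
      obtain ⟨h5, h6⟩ := h f g hf hg hs
      have hfg : f ≠ g := fun h => hqq (by rw [← hf, ← hg, h])
      have h7 : (.inr f : P ⊕ F) ≠ .inr f0 := fun h => h5 (Sum.inr_injective h)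
      have h8 : (.inr g : P ⊕ F) ≠ .inr f0 := fun h => h6 (Sum.inr_injective h)
      refine (Jo.adj (v := .inr f) hf (by simp) h7).trans ?_
      refine (Jo.adj (v := .inr g) (show S.G.Adj (.inr f) (.inr g) from ⟨hfg, hs⟩) h7 h8).trans ?_
      exact Jo.adj hg h8 (by simp)
    have h0r : ∀ q : P, q ≠ r → Jo S.G (.inr f0) (.inl q) (.inl r) := by
      intro q hq
      refine h0 q r hq fun f g hf hg hs => ⟨?_, ?_⟩
      · rintro rfl
        exact hr ⟨g, hs, hg⟩
      · rintro rfl
        exact hr ⟨g, S.refl g, hg⟩
    have h1 : ∀ q : P, Jo S.G (.inr f0) (.inl q) (.inl r) := by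
      intro q
      by_cases hq : q = r
      · subst hq
        exact Jo.refl (by simp)
      · exact h0r q hq
    have h4 : ∀ u : P ⊕ F, u ≠ .inr f0 → Jo S.G (.inr f0) u (.inl r) := by
      rintro (q | f) hu
      · exact h1 q
      · exact (Jo.adj (v := .inl (S.pt f)) rfl hu (by simp)).trans (h1 _)
    exact (h4 u hu).trans (h4 v hv).symm

end FS

end Pool.Agent.Run7.h922.GG
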