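import Pool.Agent.Run7.h922.GG.Enc
import Pool.Agent.Y815.GI.Red
import Pool.Agent.H642R2.TMSim
import Pool.Agent.NPC.Classes

/-!
# The reduction from graph isomorphism to isomorphism of geodetic graphs
-/

set_option autoImplicit false

namespace Pool.Agent.Run7.h922.GG

open Pool.Agent.NPC Pool.Agent.NPC.R671 Pool.Agent.Y815.GI

/-! ### The computation -/

/-- labels of points -/
abbrev Pl := ℕ × ℕ × ℕ

/-- labels of vertices -/
abbrev Lb := ℕ × Pl × Pl

/-- incidence -/
def incL (x : Pl) (v : ℕ) : Bool := decide (v = x.2.1) || (decide (x.1 = 0) && decide (v = x.2.2))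

/-- the points -/
def pts (M : List (List Bool)) : List Pl :=
  (((List.range M.length ×ˢ List.range M.length).filter
    (fun p => decide (p.1 < p.2) && ent M p.1 p.2)).map (fun p => ((0, p.1, p.2) : Pl))) ++
  ((List.range M.length ×ˢ [0, 1, 2]).map (fun p => ((1, p.1, p.2) : Pl)))

/-- on a common line -/
def colL (M : List (List Bool)) (x y : Pl) : Bool :=
  (List.range M.length).any (fun v => incL x v && incL y v)

/-- the list of the vertices -/
def verts (M : List (List Bool)) : List Lb :=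
  (pts M).map (fun x => ((0, x, (0, 0, 0)) : Lb)) ++
  ((((pts M) ×ˢ List.range M.length).filter (fun z => incL z.1 z.2)).map
      (fun z => ((1, z.1, (z.2, 0, 0)) : Lb)) ++
  (((pts M) ×ˢ (pts M)).filter (fun z => !(decide (z.1 = z.2)) && !(colL M z.1 z.2))).map
      (fun z => ((2, z.1, z.2) : Lb)))

/-- adjacency of labels -/
def adB (a b : Lb) : Bool :=
  (decide (a.1 = 0) && (!(decide (b.1 = 0)) && decide (a.2.1 = b.2.1))) ||
  ((decide (b.1 = 0) && (!(decide (a.1 = 0)) && decide (a.2.1 = b.2.1))) ||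
  ((decide (a.1 = 1) && (decide (b.1 = 1) && (!(decide (a.2.1 = b.2.1)) &&
    decide (a.2.2 = b.2.2)))) ||
  (decide (a.1 = 2) && (decide (b.1 = 2) && (!(decide (a.2 = b.2)) &&
    (decide (a.2.1 = b.2.2) && decide (a.2.2 = b.2.1)))))))

/-- the output matrix -/
def out (M : List (List Bool)) : List (List Bool) :=
  (verts M).map (fun u => (verts M).map (fun w => adB u w))

theorem adB_iff (a b : Lb) : adB a b = true ↔
    ((a.1 = 0 ∧ b.1 ≠ 0 ∧ a.2.1 = b.2.1) ∨ (b.1 = 0 ∧ a.1 ≠ 0 ∧ a.2.1 = b.2.1) ∨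
    (a.1 = 1 ∧ b.1 = 1 ∧ a.2.1 ≠ b.2.1 ∧ a.2.2 = b.2.2) ∨
    (a.1 = 2 ∧ b.1 = 2 ∧ a.2 ≠ b.2 ∧ a.2.1 = b.2.2 ∧ a.2.2 = b.2.1)) := by
  simp only [adB, Bool.or_eq_true, Bool.and_eq_true, decide_eq_true_eq, Bool.not_eq_true',
    decide_eq_false_iff_not, ne_eq]

theorem adB_symm (a b : Lb) : adB a b = adB b a := by
  rw [Bool.eq_iff_iff, adB_iff, adB_iff]
  constructor
  · rintro (h | h | ⟨h1, h2, h3, h4⟩ | ⟨h1, h2, h3, h4, h5⟩)
    · exact Or.inr (Or.inl ⟨h.1, h.2.1, h.2.2.symm⟩)
    · exact Or.inl ⟨h.1, h.2.1, h.2.2.symm⟩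
    · exact Or.inr (Or.inr (Or.inl ⟨h2, h1, h3.symm, h4.symm⟩))
    · exact Or.inr (Or.inr (Or.inr ⟨h2, h1, h3.symm, h5.symm, h4.symm⟩))
  · rintro (h | h | ⟨h1, h2, h3, h4⟩ | ⟨h1, h2, h3, h4, h5⟩)
    · exact Or.inr (Or.inl ⟨h.1, h.2.1, h.2.2.symm⟩)
    · exact Or.inl ⟨h.1, h.2.1, h.2.2.symm⟩
    · exact Or.inr (Or.inr (Or.inl ⟨h2, h1, h3.symm, h4.symm⟩))
    · exact Or.inr (Or.inr (Or.inr ⟨h2, h1, h3.symm, h5.symm, h4.symm⟩))

theorem adB_irrefl (a : Lb) : adB a a = false := by
  rw [Bool.eq_false_iff]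
  intro h
  rw [adB_iff] at h
  rcases h with h | h | h | h
  · exact h.2.1 h.1
  · exact h.2.1 h.1
  · exact h.2.2.1 rfl
  · exact h.2.2.1 rfl

/-! ### Correctness -/

section

variable {n : ℕ} (X : SimpleGraph (Fin n))

/-- the label of a point -/
def pcode : Pt X → Pl
  | .inl e => (0, e.1.inf, e.1.sup)
  | .inr w => (1, w.1, w.2)

theorem pcode_inj : Function.Injective (pcode X) := by
  intro a b h
  rcases a with a | a <;> rcases b with b | b
  · simp only [pcode, Prod.mk.injEq, true_and] at h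
    have h1 : a.1 = b.1 := Sym2.inf_eq_inf_and_sup_eq_sup.1 ⟨Fin.ext h.1, Fin.ext h.2⟩
    rw [Subtype.ext h1]
  · exact absurd (congrArg Prod.fst h) (by simp [pcode])
  · exact absurd (congrArg Prod.fst h) (by simp [pcode])
  · simp only [pcode, Prod.mk.injEq, true_and] at h
    have h1 : a = b := Prod.ext (Fin.ext h.1) (Fin.ext h.2)
    rw [h1]

theorem mem_iff (e : Sym2 (Fin n)) (v : Fin n) : v ∈ e ↔ v = e.inf ∨ v = e.sup := by
  induction e with
  | _ a b =>
    rw [Sym2.mem_iff, Sym2.inf_mk, Sym2.sup_mk]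
    rcases le_total a b with h | h
    · rw [inf_eq_left.2 h, sup_eq_right.2 h]
    · rw [inf_eq_right.2 h, sup_eq_left.2 h, or_comm]

theorem incL_iff (x : Pt X) (v : Fin n) : incL (pcode X x) v = true ↔ inc X x v := by
  unfold incL
  rw [Bool.or_eq_true, Bool.and_eq_true, decide_eq_true_eq, decide_eq_true_eq, decide_eq_true_eq]
  rcases x with x | x
  · show ((v : ℕ) = (x.1.inf : ℕ) ∨ (0 = 0 ∧ (v : ℕ) = (x.1.sup : ℕ))) ↔ v ∈ x.1
    rw [mem_iff, Fin.ext_iff, Fin.ext_iff]
    simp
  · show ((v : ℕ) = (x.1 : ℕ) ∨ (1 = 0 ∧ (v : ℕ) = (x.2 : ℕ))) ↔ x.1 = v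
    rw [Fin.ext_iff]
    constructor
    · rintro (h | h)
      · exact h.symm
      · exact absurd h.1 (by norm_num)
    · intro h
      exact Or.inl h.symm

theorem mem_pts (z : Pl) : z ∈ pts (adjMatrix X) ↔ ∃ x, pcode X x = z := by
  unfold pts
  rw [length_adjMatrix]
  simp only [List.mem_append, List.mem_map, List.mem_range, List.mem_product, List.mem_filter,
    Prod.exists, Bool.and_eq_true, decide_eq_true_eq]
  constructor
  · rintro (⟨i, j, ⟨⟨hi, hj⟩, hij, he⟩, rfl⟩ | ⟨v, k, ⟨hv, hk⟩, rfl⟩)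
    · refine ⟨.inl ⟨s(⟨i, hi⟩, ⟨j, hj⟩), (ent_adjMatrix X ⟨i, hi⟩ ⟨j, hj⟩).1 he⟩, ?_⟩
      have h : (⟨i, hi⟩ : Fin n) ≤ ⟨j, hj⟩ := hij.le
      show ((0, ((⟨i, hi⟩ : Fin n) ⊓ ⟨j, hj⟩ : Fin n), ((⟨i, hi⟩ : Fin n) ⊔ ⟨j, hj⟩ : Fin n)) : Pl) = _
      rw [inf_eq_left.2 h, sup_eq_right.2 h]
    · have hk' : k < 3 := by
        simp only [List.mem_cons, List.not_mem_nil, or_false] at hk
        omega
      exact ⟨.inr (⟨v, hv⟩, ⟨k, hk'⟩), rfl⟩
  · rintro ⟨x | x, rfl⟩
    · left
      refine ⟨x.1.inf, x.1.sup, ⟨⟨(x.1.inf).2, (x.1.sup).2⟩, ?_, ?_⟩, rfl⟩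
      · obtain ⟨e, he⟩ := x
        induction e with
        | _ a b =>
          have hne : a ≠ b := (show X.Adj a b from he).ne
          show ((a ⊓ b : Fin n) : ℕ) < ((a ⊔ b : Fin n) : ℕ)
          exact Fin.lt_def.1 (inf_lt_sup.2 hne)
      · rw [ent_adjMatrix]
        obtain ⟨e, he⟩ := x
        induction e with
        | _ a b =>
          have he' : X.Adj a b := he
          show X.Adj (a ⊓ b) (a ⊔ b)
          rcases le_total a b with h | h
          · rw [inf_eq_left.2 h, sup_eq_right.2 h]; exact he'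
          · rw [inf_eq_right.2 h, sup_eq_left.2 h]; exact he'.symm
    · right
      refine ⟨x.1, x.2, ⟨x.1.2, ?_⟩, rfl⟩
      have := x.2.2
      simp only [List.mem_cons, List.not_mem_nil, or_false]
      omega

theorem colL_iff (x y : Pt X) : colL (adjMatrix X) (pcode X x) (pcode X y) = true ↔
    ∃ v, inc X x v ∧ inc X y v := by
  unfold colL
  rw [length_adjMatrix]
  simp only [List.any_eq_true, List.mem_range, Bool.and_eq_true]
  constructor
  · rintro ⟨v, hv, h1, h2⟩
    exact ⟨⟨v, hv⟩, (incL_iff X x ⟨v, hv⟩).1 h1, (incL_iff X y ⟨v, hv⟩).1 h2⟩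
  · rintro ⟨v, h1, h2⟩
    exact ⟨v, v.2, (incL_iff X x v).2 h1, (incL_iff X y v).2 h2⟩

/-- the label of a vertex -/
def code : Pt X ⊕ (ofGraph X).Fl → Lb
  | .inl x => (0, pcode X x, (0, 0, 0))
  | .inr (.inl a) => (1, pcode X a.1.1, (a.1.2, 0, 0))
  | .inr (.inr a) => (2, pcode X a.1.1, pcode X a.1.2)

theorem code_inj : Function.Injective (code X) := by
  intro a b h
  rcases a with a | a | a <;> rcases b with b | b | b
  · have h1 : pcode X a = pcode X b := congrArg (fun z => z.2.1) h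
    rw [pcode_inj X h1]
  · exact absurd (congrArg Prod.fst h) (by simp [code])
  · exact absurd (congrArg Prod.fst h) (by simp [code])
  · exact absurd (congrArg Prod.fst h) (by simp [code])
  · have h1 : pcode X a.1.1 = pcode X b.1.1 := congrArg (fun z => z.2.1) h
    have h2 : (a.1.2 : ℕ) = b.1.2 := congrArg (fun z => z.2.2.1) h
    have h3 : a = b := Subtype.ext (Prod.ext (pcode_inj X h1) (Fin.ext h2))
    rw [h3]
  · exact absurd (congrArg Prod.fst h) (by simp [code])
  · exact absurd (congrArg Prod.fst h) (by simp [code])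
  · exact absurd (congrArg Prod.fst h) (by simp [code])
  · have h1 : pcode X a.1.1 = pcode X b.1.1 := congrArg (fun z => z.2.1) h
    have h2 : pcode X a.1.2 = pcode X b.1.2 := congrArg (fun z => z.2.2) h
    have h3 : a = b := Subtype.ext (Prod.ext (pcode_inj X h1) (pcode_inj X h2))
    rw [h3]

theorem adB_code (a b : Pt X ⊕ (ofGraph X).Fl) :
    adB (code X a) (code X b) = true ↔ (ofGraph X).Gr.Adj a b := by
  have hp : ∀ x y, pcode X x = pcode X y ↔ x = y := fun x y => (pcode_inj X).eq_iff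
  rw [adB_iff]
  rcases a with a | a | a <;> rcases b with b | b | b
  · show _ ↔ False
    simp [code]
  · show _ ↔ b.1.1 = a
    simp [code, hp, eq_comm]
  · show _ ↔ b.1.1 = a
    simp [code, hp, eq_comm]
  · show _ ↔ a.1.1 = b
    simp [code, hp]
  · show _ ↔ ((.inl a : (ofGraph X).Fl) ≠ .inl b ∧ a.1.2 = b.1.2)
    have h : (.inl a : (ofGraph X).Fl) ≠ .inl b ↔ ¬ (a.1.1 = b.1.1 ∧ a.1.2 = b.1.2) := by
      apply not_congr
      constructor
      · intro h
        rw [Sum.inl_injective h]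
        exact ⟨rfl, rfl⟩
      · intro h
        rw [Subtype.ext (Prod.ext h.1 h.2)]
    rw [h]
    simp only [code, hp]
    constructor
    · rintro (h | h | h | h)
      · exact absurd h.1 (by norm_num)
      · exact absurd h.1 (by norm_num)
      · have h5 : (a.1.2 : ℕ) = b.1.2 := congrArg Prod.fst h.2.2.2
        exact ⟨fun h' => h.2.2.1 (by rw [h'.1]), Fin.ext h5⟩
      · exact absurd h.1 (by norm_num)
    · rintro ⟨h1, h2⟩
      refine Or.inr (Or.inr (Or.inl ⟨trivial, trivial, fun h => h1 ⟨(hp _ _).1 h, h2⟩, by rw [h2]⟩))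
  · show _ ↔ (_ ∧ False)
    simp [code]
  · show _ ↔ a.1.1 = b
    simp [code, hp]
  · show _ ↔ (_ ∧ False)
    simp [code]
  · show _ ↔ ((.inr a : (ofGraph X).Fl) ≠ .inr b ∧
      ((a.1.1 = b.1.1 ∧ a.1.2 = b.1.2) ∨ (a.1.1 = b.1.2 ∧ a.1.2 = b.1.1)))
    have h : (.inr a : (ofGraph X).Fl) ≠ .inr b ↔ ¬ (a.1.1 = b.1.1 ∧ a.1.2 = b.1.2) := by
      apply not_congr
      constructor
      · intro h
        rw [Sum.inr_injective h]
        exact ⟨rfl, rfl⟩
      · intro h
        rw [Subtype.ext (Prod.ext h.1 h.2)]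
    rw [h]
    simp only [code, hp]
    constructor
    · rintro (h | h | h | h)
      · exact absurd h.1 (by norm_num)
      · exact absurd h.1 (by norm_num)
      · exact absurd h.1 (by norm_num)
      · exact ⟨fun h' => h.2.2.1 (by rw [h'.1, h'.2]), Or.inr h.2.2.2⟩
    · rintro ⟨h1, h2⟩
      rcases h2 with h2 | h2
      · exact absurd h2 h1
      · refine Or.inr (Or.inr (Or.inr ⟨trivial, trivial, fun h => h1 ?_, h2⟩))
        rw [Prod.mk.injEq, hp, hp] at h
        exact h

theorem mem_prod {α β : Type} {l : List α} {l' : List β} {z : α × β} :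
    z ∈ l ×ˢ l' ↔ z.1 ∈ l ∧ z.2 ∈ l' := by
  cases z
  exact List.mem_product

theorem mem_verts (z : Lb) : z ∈ verts (adjMatrix X) ↔ ∃ a, code X a = z := by
  unfold verts
  simp only [List.mem_append, List.mem_map, mem_prod, List.mem_filter, mem_pts,
    Bool.and_eq_true, Bool.not_eq_true', decide_eq_false_iff_not]
  constructor
  · rintro (⟨x, ⟨x, rfl⟩, rfl⟩ | ⟨⟨z, v⟩, ⟨⟨⟨x, hx⟩, hv⟩, hi⟩, rfl⟩ |
      ⟨⟨z, w⟩, ⟨⟨⟨x, hx⟩, ⟨y, hy⟩⟩, h1, h2⟩, rfl⟩) <;>
      (try (obtain rfl : _ = z := hx)) <;> (try (obtain rfl : _ = w := hy))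
    · exact ⟨.inl x, rfl⟩
    · rw [List.mem_range, length_adjMatrix] at hv
      exact ⟨.inr (.inl ⟨(x, ⟨v, hv⟩), (incL_iff X x ⟨v, hv⟩).1 hi⟩), rfl⟩
    · refine ⟨.inr (.inr ⟨(x, y), fun h => h1 (by rw [show x = y from h]), fun v hv => ?_⟩), rfl⟩
      rw [Bool.eq_false_iff] at h2
      exact h2 ((colL_iff X x y).2 ⟨v, hv⟩)
  · rintro ⟨a | a | a, rfl⟩
    · exact Or.inl ⟨pcode X a, ⟨a, rfl⟩, rfl⟩
    · refine Or.inr (Or.inl ⟨(pcode X a.1.1, (a.1.2 : ℕ)), ⟨⟨⟨a.1.1, rfl⟩, ?_⟩, ?_⟩, rfl⟩)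
      · rw [List.mem_range, length_adjMatrix]
        exact a.1.2.2
      · exact (incL_iff X a.1.1 a.1.2).2 a.2
    · refine Or.inr (Or.inr ⟨(pcode X a.1.1, pcode X a.1.2), ⟨⟨⟨a.1.1, rfl⟩, ⟨a.1.2, rfl⟩⟩, ?_, ?_⟩,
        rfl⟩)
      · exact fun h => a.2.1 (pcode_inj X h)
      · rw [Bool.eq_false_iff]
        intro h
        obtain ⟨v, hv⟩ := (colL_iff X a.1.1 a.1.2).1 h
        exact a.2.2 v hv

end

theorem nodup_pts (M : List (List Bool)) : (pts M).Nodup := by
  unfold pts
  have hr : ∀ k : ℕ, (List.range k).Nodup := fun k => List.nodup_range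
  refine List.Nodup.append ?_ ?_ ?_
  · refine (((hr _).product (hr _)).filter _).map fun a b h => ?_
    simp only [Prod.mk.injEq, true_and] at h
    exact Prod.ext h.1 h.2
  · refine ((hr _).product (by decide)).map fun a b h => ?_
    simp only [Prod.mk.injEq, true_and] at h
    exact Prod.ext h.1 h.2
  · intro z h1 h2
    rw [List.mem_map] at h1 h2
    obtain ⟨p, _, rfl⟩ := h1
    obtain ⟨q, _, h3⟩ := h2
    exact absurd (congrArg Prod.fst h3) (by simp)

theorem nodup_verts (M : List (List Bool)) : (verts M).Nodup := by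
  unfold verts
  have hr : ∀ k : ℕ, (List.range k).Nodup := fun k => List.nodup_range
  refine List.Nodup.append ?_ (List.Nodup.append ?_ ?_ ?_) ?_
  · refine (nodup_pts M).map fun a b h => ?_
    simp only [Prod.mk.injEq, true_and, and_true] at h
    exact h
  · refine (((nodup_pts M).product (hr _)).filter _).map fun a b h => ?_
    simp only [Prod.mk.injEq, true_and, and_true] at h
    exact Prod.ext h.1 h.2
  · refine (((nodup_pts M).product (nodup_pts M)).filter _).map fun a b h => ?_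
    simp only [Prod.mk.injEq, true_and] at h
    exact Prod.ext h.1 h.2
  · intro z h1 h2
    rw [List.mem_map] at h1 h2
    obtain ⟨p, _, rfl⟩ := h1
    obtain ⟨q, _, h3⟩ := h2
    exact absurd (congrArg Prod.fst h3) (by simp)
  · intro z h1 h2
    rw [List.mem_map] at h1
    rw [List.mem_append, List.mem_map, List.mem_map] at h2
    obtain ⟨p, _, rfl⟩ := h1
    rcases h2 with ⟨q, _, h3⟩ | ⟨q, _, h3⟩
    · exact absurd (congrArg Prod.fst h3) (by simp)
    · exact absurd (congrArg Prod.fst h3) (by simp)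

/-- The output is the adjacency matrix of a graph isomorphic to the construction. -/
theorem out_eq {n : ℕ} (X : SimpleGraph (Fin n)) : ∃ (N : ℕ) (X' : SimpleGraph (Fin N)),
    adjMatrix X' = out (adjMatrix X) ∧ Nonempty (X' ≃g (ofGraph X).Gr) := by
  obtain ⟨e, he⟩ := exists_equiv (verts (adjMatrix X)) (nodup_verts _) (code X)
    (code_inj X) (mem_verts X)
  refine ⟨_, listGraph (verts (adjMatrix X)) adB adB_symm adB_irrefl, ?_, ⟨⟨e, ?_⟩⟩⟩
  · rw [adjMatrix_listGraph]
    rfl
  · intro a b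
    rw [← adB_code, he, he]
    exact Iff.rfl

/-! ### The properties of the output -/

/-- The graph is geodetic, has no cut vertex and has diameter at most five. -/
def Good {V : Type*} (G : SimpleGraph V) : Prop := Geodetic G ∧ NoCut G ∧ ∀ u v, G.dist u v ≤ 5

theorem dist_iso_le {V W : Type*} {G : SimpleGraph V} {H : SimpleGraph W} (φ : G ≃g H) (u v : V)
    (h : G.Reachable u v) : H.dist (φ u) (φ v) ≤ G.dist u v := by
  obtain ⟨p, hp⟩ := h.exists_walk_length_eq_dist
  rw [← hp, ← SimpleGraph.Walk.length_map φ.toHom p]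
  exact SimpleGraph.dist_le _

theorem dist_iso {V W : Type*} {G : SimpleGraph V} {H : SimpleGraph W} (φ : G ≃g H) (u v : V) :
    H.dist (φ u) (φ v) = G.dist u v := by
  by_cases h : G.Reachable u v
  · apply le_antisymm (dist_iso_le φ u v h)
    have h' : H.Reachable (φ u) (φ v) := h.map φ.toHom
    have h2 := dist_iso_le φ.symm (φ u) (φ v) h'
    simpa using h2
  · have h' : ¬ H.Reachable (φ u) (φ v) := by
      intro h2
      apply h
      have h3 := h2.map φ.symm.toHom
      simpa using h3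
    rw [SimpleGraph.dist_eq_zero_of_not_reachable h, SimpleGraph.dist_eq_zero_of_not_reachable h']

theorem Geodetic.iso {V W : Type*} {G : SimpleGraph V} {H : SimpleGraph W} (φ : G ≃g H)
    (h : Geodetic G) : Geodetic H := by
  refine ⟨(SimpleGraph.Iso.connected_iff φ).1 h.1, fun u v => ?_⟩
  obtain ⟨p, hp, hu⟩ := h.2 (φ.symm u) (φ.symm v)
  have e1 : φ (φ.symm u) = u := φ.apply_symm_apply u
  have e2 : φ (φ.symm v) = v := φ.apply_symm_apply v
  have hd : H.dist u v = G.dist (φ.symm u) (φ.symm v) := by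
    rw [← dist_iso φ, e1, e2]
  have key : ∃! q : H.Path (φ (φ.symm u)) (φ (φ.symm v)),
      (q : H.Walk (φ (φ.symm u)) (φ (φ.symm v))).length = G.dist (φ.symm u) (φ.symm v) := by
    refine ⟨⟨p.1.map φ.toHom, p.2.map φ.injective⟩, ?_, ?_⟩
    · show (p.1.map φ.toHom).length = _
      rw [SimpleGraph.Walk.length_map]
      exact hp
    · rintro ⟨q, hq⟩ hq'
      apply Subtype.ext
      show q = p.1.map φ.toHom
      have hcl : ∀ (a b : V) (r : G.Walk a b) (q : H.Walk (φ a) (φ b)), q.length = r.length →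
          (∀ r' : G.Walk a b, r'.length = r.length → r' = r) → q = r.map φ.toHom := by
        intro a b r q hqr hr
        -- pull back
        have hpb : ∀ (c d : W) (q : H.Walk c d) (a b : V) (hc : φ a = c) (hd : φ b = d),
            ∃ r' : G.Walk a b, (r'.map φ.toHom).copy hc hd = q := by
          intro c d q
          induction q with
          | nil =>
            intro a b hc hd
            have hab : a = b := φ.injective (hc.trans hd.symm)
            subst hab
            subst hc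
            exact ⟨SimpleGraph.Walk.nil, rfl⟩
          | @cons c e d hce q ih =>
            intro a b hc hd
            obtain ⟨e', rfl⟩ := φ.surjective e
            subst hc
            obtain ⟨r', hr'⟩ := ih e' b rfl hd
            refine ⟨SimpleGraph.Walk.cons (φ.map_adj_iff.1 hce) r', ?_⟩
            subst hd
            rw [← hr']
            rfl
        obtain ⟨r', hr'⟩ := hpb _ _ q a b rfl rfl
        have h3 : r'.map φ.toHom = q := by
          rw [← hr']
          rfl
        have h4 : r'.length = r.length := by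
          rw [← hqr, ← h3, SimpleGraph.Walk.length_map]
        rw [← h3, hr r' h4]
      apply hcl _ _ p.1 q (hq'.trans hp.symm)
      intro r' hr'
      have hr'' : r'.length = G.dist (φ.symm u) (φ.symm v) := hr'.trans hp
      exact congrArg Subtype.val
        (hu ⟨r', SimpleGraph.Walk.isPath_of_length_eq_dist r' hr''⟩ hr'')
  rw [hd]
  rw [e1, e2] at key
  exact key

theorem NoCut.iso {V W : Type*} {G : SimpleGraph V} {H : SimpleGraph W} (φ : G ≃g H)
    (h : NoCut G) : NoCut H := by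
  intro z u v hu hv
  obtain ⟨z, rfl⟩ := φ.surjective z
  obtain ⟨u, rfl⟩ := φ.surjective u
  obtain ⟨v, rfl⟩ := φ.surjective v
  obtain ⟨p, hp⟩ := h z u v (fun h' => hu (by rw [h'])) (fun h' => hv (by rw [h']))
  refine ⟨p.map φ.toHom, ?_⟩
  rw [SimpleGraph.Walk.support_map, List.mem_map]
  rintro ⟨a, ha, h2⟩
  rw [show a = z from φ.injective h2] at ha
  exact hp ha

theorem Good.iso {V W : Type*} {G : SimpleGraph V} {H : SimpleGraph W} (φ : G ≃g H)
    (h : Good G) : Good H := by
  refine ⟨h.1.iso φ, h.2.1.iso φ, fun u v => ?_⟩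
  obtain ⟨u, rfl⟩ := φ.surjective u
  obtain ⟨v, rfl⟩ := φ.surjective v
  rw [dist_iso]
  exact h.2.2 u v

theorem good_gr {n : ℕ} (X : SimpleGraph (Fin n)) (hn : 2 ≤ n) : Good (ofGraph X).Gr := by
  have : Nontrivial (Fin n) := Fin.nontrivial_iff_two_le.2 hn
  obtain ⟨h1, h2⟩ := geodetic_gr X
  exact ⟨h1, noCut_gr X, h2⟩

/-- Complete graphs. -/
theorem good_top (n : ℕ) (hn : 1 ≤ n) : Good (⊤ : SimpleGraph (Fin n)) := by
  have : Nonempty (Fin n) := ⟨⟨0, hn⟩⟩
  obtain ⟨h1, h2⟩ := geodetic_of_fun (G := (⊤ : SimpleGraph (Fin n)))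
    (d := fun u v => if u = v then 0 else 1) (fun v => if_pos rfl) (fun u v huv =>
      ⟨v, huv, by simp [huv], fun w _ hne => by simp [huv, hne]⟩)
  refine ⟨h1, ?_, fun u v => ?_⟩
  · intro z u v hu hv
    by_cases huv : u = v
    · subst huv
      exact Jo.refl hu
    · exact Jo.adj huv hu hv
  · rw [h2]
    split_ifs <;> omega

/-! ### The reduction -/

/-- the reduction -/
def red (p : List (List Bool) × List (List Bool)) : List (List Bool) × List (List Bool) :=
  if (valid p.1 = true ∧ valid p.2 = true) ∧ p.1.length = p.2.length then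
    (if 2 ≤ p.1.length then (out p.1, out p.2) else ([[false]], [[false]]))
  else ([[false]], [[false, true], [true, false]])

theorem adj_top_one : adjMatrix (⊤ : SimpleGraph (Fin 1)) = [[false]] := by
  simp [adjMatrix]

theorem adj_top_two : adjMatrix (⊤ : SimpleGraph (Fin 2)) = [[false, true], [true, false]] := by
  simp [adjMatrix]

theorem graphIso_iff {n m : ℕ} (X : SimpleGraph (Fin n)) (Y : SimpleGraph (Fin m)) :
    GraphIso (adjMatrix X, adjMatrix Y) ↔ Nonempty (X ≃g Y) := by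
  constructor
  · rintro ⟨n', m', X₁, Y₁, e1, e2, h⟩
    have hn' : n' = n := by
      rw [← length_adjMatrix X₁, e1, length_adjMatrix]
    have hm' : m' = m := by
      rw [← length_adjMatrix Y₁, e2, length_adjMatrix]
    subst hn'
    subst hm'
    rw [adjMatrix_inj e1, adjMatrix_inj e2] at h
    exact h
  · intro h
    exact ⟨n, m, X, Y, rfl, rfl, h⟩

theorem red_spec (p : List (List Bool) × List (List Bool)) :
    ∃ (N M : ℕ) (X' : SimpleGraph (Fin N)) (Y' : SimpleGraph (Fin M)),
      red p = (adjMatrix X', adjMatrix Y') ∧ Good X' ∧ Good Y' ∧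
        (GraphIso p ↔ Nonempty (X' ≃g Y')) := by
  by_cases h : (valid p.1 = true ∧ valid p.2 = true) ∧ p.1.length = p.2.length
  · obtain ⟨p1, p2⟩ := p
    obtain ⟨⟨h1, h2⟩, h3⟩ := h
    rw [valid_iff] at h1 h2
    obtain ⟨n, X, rfl⟩ := h1
    obtain ⟨m, Y, rfl⟩ := h2
    rw [length_adjMatrix, length_adjMatrix] at h3
    subst h3
    have hv : (valid (adjMatrix X) = true ∧ valid (adjMatrix Y) = true) ∧
        (adjMatrix X).length = (adjMatrix Y).length :=
      ⟨⟨(valid_iff _).2 ⟨n, X, rfl⟩, (valid_iff _).2 ⟨n, Y, rfl⟩⟩, by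
        rw [length_adjMatrix, length_adjMatrix]⟩
    by_cases hn : 2 ≤ n
    · obtain ⟨N, X', hX', ⟨φ⟩⟩ := out_eq X
      obtain ⟨M, Y', hY', ⟨ψ⟩⟩ := out_eq Y
      refine ⟨N, M, X', Y', ?_, (good_gr X hn).iso φ.symm, (good_gr Y hn).iso ψ.symm, ?_⟩
      · unfold red
        rw [if_pos hv, if_pos (by rw [length_adjMatrix]; exact hn), hX', hY']
      · rw [graphIso_iff, iso_iff X Y]
        constructor
        · rintro ⟨χ⟩
          exact ⟨φ.trans (χ.trans ψ.symm)⟩
        · rintro ⟨χ⟩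
          exact ⟨φ.symm.trans (χ.trans ψ)⟩
    · refine ⟨1, 1, ⊤, ⊤, ?_, good_top 1 le_rfl, good_top 1 le_rfl, ?_⟩
      · unfold red
        rw [if_pos hv, if_neg (by rw [length_adjMatrix]; exact hn), adj_top_one]
      · rw [graphIso_iff]
        refine ⟨fun _ => ⟨SimpleGraph.Iso.refl⟩, fun _ => ?_⟩
        refine ⟨⟨Equiv.refl _, fun {a b} => ?_⟩⟩
        have hab : a = b := Fin.ext (by omega)
        subst hab
        simp
  · refine ⟨1, 2, ⊤, ⊤, ?_, good_top 1 le_rfl, good_top 2 (by norm_num), ?_⟩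
    · unfold red
      rw [if_neg h, adj_top_one, adj_top_two]
    · constructor
      · rintro ⟨n, m, X, Y, h1, h2, ⟨φ⟩⟩
        exfalso
        apply h
        refine ⟨⟨(valid_iff _).2 ⟨n, X, h1⟩, (valid_iff _).2 ⟨m, Y, h2⟩⟩, ?_⟩
        rw [← h1, ← h2, length_adjMatrix, length_adjMatrix]
        have := Fintype.card_congr φ.toEquiv
        simpa using this
      · rintro ⟨φ⟩
        have := Fintype.card_congr φ.toEquiv
        simp at this

/-! ### Polynomial time -/

section

variable {α : Type} [TEnc α]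

@[fun_prop]
theorem poly_incL {x : α → Pl} {v : α → ℕ} (hx : Poly x) (hv : Poly v) :
    Poly (fun a => incL (x a) (v a)) := by
  unfold incL
  fun_prop

@[fun_prop]
theorem poly_pts {f : α → List (List Bool)} (hf : Poly f) : Poly (fun a => pts (f a)) := by
  unfold pts
  fun_prop

@[fun_prop]
theorem poly_colL {f : α → List (List Bool)} {x y : α → Pl} (hf : Poly f) (hx : Poly x)
    (hy : Poly y) : Poly (fun a => colL (f a) (x a) (y a)) := by
  unfold colL
  fun_prop

@[fun_prop]
theorem poly_verts {f : α → List (List Bool)} (hf : Poly f) : Poly (fun a => verts (f a)) := by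
  unfold verts
  fun_prop

@[fun_prop]
theorem poly_adB {a b : α → Lb} (ha : Poly a) (hb : Poly b) :
    Poly (fun x => adB (a x) (b x)) := by
  unfold adB
  fun_prop

@[fun_prop]
theorem poly_out {f : α → List (List Bool)} (hf : Poly f) : Poly (fun a => out (f a)) := by
  unfold out
  fun_prop

end

theorem poly_red : Poly red := by
  unfold red
  fun_prop

/-- The reduction on bit strings. -/
def redBits (x : List Bool) : List (List Bool) × List (List Bool) :=
  (unbits (List (List Bool) × List (List Bool)) x).elim ([[false]], [[false, true], [true, false]])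
    red

theorem poly_redBits : Poly redBits := by
  unfold redBits
  exact NPC.Poly.optElim poly_unbits (NPC.Poly.const _) (poly_red.comp (NPC.Poly.snd NPC.Poly.id))

theorem redBits_spec (x : List Bool) :
    ∃ (N M : ℕ) (X' : SimpleGraph (Fin N)) (Y' : SimpleGraph (Fin M)),
      redBits x = (adjMatrix X', adjMatrix Y') ∧ Good X' ∧ Good Y' ∧
        (x ∈ lang GraphIso ↔ Nonempty (X' ≃g Y')) := by
  unfold redBits
  rw [mem_lang_iff]
  cases h : unbits (List (List Bool) × List (List Bool)) x with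
  | none =>
    refine ⟨1, 2, ⊤, ⊤, ?_, good_top 1 le_rfl, good_top 2 (by norm_num), ?_⟩
    · rw [adj_top_one, adj_top_two]
      rfl
    · constructor
      · rintro ⟨a, ha, _⟩
        exact absurd ha (by simp)
      · rintro ⟨φ⟩
        have := Fintype.card_congr φ.toEquiv
        simp at this
  | some p =>
    obtain ⟨N, M, X', Y', h1, h2, h3, h4⟩ := red_spec p
    refine ⟨N, M, X', Y', h1, h2, h3, ?_⟩
    rw [← h4]
    constructor
    · rintro ⟨a, ha, h5⟩
      rw [Option.some.inj ha]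
      exact h5
    · intro h5
      exact ⟨p, rfl, h5⟩

/-- The yes-instances of the isomorphism problem for geodetic graphs: pairs of adjacency matrices
of isomorphic geodetic graphs. -/
def GeodeticIso (p : List (List Bool) × List (List Bool)) : Prop :=
  ∃ (n m : ℕ) (X : SimpleGraph (Fin n)) (Y : SimpleGraph (Fin m)),
    adjMatrix X = p.1 ∧ adjMatrix Y = p.2 ∧ Geodetic X ∧ Geodetic Y ∧ Nonempty (X ≃g Y)

/-- Graph isomorphism reduces in polynomial time to the isomorphism of geodetic graphs without cut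
vertices and of diameter at most five. -/
theorem main : ∃ f : List Bool → List Bool, PolyTime f ∧ ∀ x : List Bool,
    ∃ (N M : ℕ) (X' : SimpleGraph (Fin N)) (Y' : SimpleGraph (Fin M)),
      f x = bits (adjMatrix X', adjMatrix Y') ∧ Good X' ∧ Good Y' ∧
        (x ∈ lang GraphIso ↔ Nonempty (X' ≃g Y')) := by
  refine ⟨fun x => bits (redBits x), polyTime_bits poly_redBits, fun x => ?_⟩
  obtain ⟨N, M, X', Y', h1, h2, h3, h4⟩ := redBits_spec x
  exact ⟨N, M, X', Y', congrArg bits h1, h2, h3, h4⟩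

theorem bits_mem_geo {N M : ℕ} (X : SimpleGraph (Fin N)) (Y : SimpleGraph (Fin M))
    (hX : Geodetic X) (hY : Geodetic Y) :
    bits (adjMatrix X, adjMatrix Y) ∈ lang GeodeticIso ↔ Nonempty (X ≃g Y) := by
  rw [bits_mem_lang]
  constructor
  · rintro ⟨n', m', X₁, Y₁, e1, e2, -, -, h⟩
    have hn' : n' = N := by
      rw [← length_adjMatrix X₁, e1, length_adjMatrix]
    have hm' : m' = M := by
      rw [← length_adjMatrix Y₁, e2, length_adjMatrix]
    subst hn'
    subst hm'
    rw [adjMatrix_inj e1, adjMatrix_inj e2] at h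
    exact h
  · intro h
    exact ⟨N, M, X, Y, rfl, rfl, hX, hY, h⟩

theorem reduces : Reduces (lang GraphIso) (lang GeodeticIso) := by
  obtain ⟨f, hf, h⟩ := main
  refine ⟨f, hf, fun x => ?_⟩
  obtain ⟨N, M, X', Y', h1, h2, h3, h4⟩ := h x
  rw [h4, h1, bits_mem_geo X' Y' h2.1 h3.1]

/-- A polynomial-time algorithm for the isomorphism of geodetic graphs (correct on all pairs of
adjacency matrices of geodetic graphs; nothing is required on other inputs) exists iff graph
isomorphism is in `P`. -/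
theorem promise_iff :
    (∃ A : List Bool → List Bool, PolyTime A ∧
      ∀ (N M : ℕ) (X : SimpleGraph (Fin N)) (Y : SimpleGraph (Fin M)), Geodetic X → Geodetic Y →
        (A (bits (adjMatrix X, adjMatrix Y)) = [true] ↔ Nonempty (X ≃g Y))) ↔
    InP (lang GraphIso) := by
  constructor
  · rintro ⟨A, hA, hA'⟩
    obtain ⟨f, hf, h⟩ := main
    refine ⟨fun x => A (f x), Pool.Agent.H642R2.TMSim.polyTime_comp hA hf, fun x => ?_⟩
    obtain ⟨N, M, X', Y', h1, h2, h3, h4⟩ := h x
    show _ ↔ A (f x) = [true]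
    rw [h4, ← hA' N M X' Y' h2.1 h3.1, h1]
  · rintro ⟨V, hV, hV'⟩
    refine ⟨V, hV, fun N M X Y _ _ => ?_⟩
    rw [← hV', bits_mem_lang, graphIso_iff]

end Pool.Agent.Run7.h922.GG
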